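import Pool.Agent.H22.LogHom2

open Pool.Agent.H22.LogHom

universe u

theorem Pool.Agent.Results.MP_3d7de8_lc.Nilpotent.result (K : Type u) [Field K] (n r : ℕ)
    (hn : 1 ≤ n) (H : Type u) [NonUnitalRing H] [Module K H] [IsScalarTower K H H]
    [SMulCommClass K H H] (x : Fin r → H) (hF : IsFreeNil K n r H x) : LogHomog K H :=
  homog hn hF
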